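import Pool.Agent.H92.EQ.TK2
import Pool.Agent.H36.EQ.KO

/-!
# MP_75a732_an, row KO2: the mean, for currents supported in a compact set

Copy of `Pool.Agent.H36.EQ.pf_KO` with KP2 for the comparison of the levels.
-/

set_option autoImplicit false

open scoped BigOperators ComplexConjugate ContDiff ComplexOrder
open MeasureTheory Filter Pool.Agent.H92.EQ Pool.Agent.H36.EQ

namespace Pool.Agent.H4.EQ

noncomputable section

theorem pf_KO2 (hKP2 : T_KP2) (hL3 : T_L3) (hL6 : T_L6) (hTH : T_TH) (hTN : T_TN)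
    (hIA : T_IA) (hP1 : T_P1)
    (hL1 : T_L1) (hP3 : T_P3) (hP5 : T_P5) (hD7 : T_D7) (hD12 : T_D12) : T_KO2 := by
  intro N d p F KK hd hp hF hCs hTG hGM q hq φ u hφ hu ε hε
  have hd1 : 1 ≤ d := by omega
  have hd0 : (0 : ℝ) < d := by exact_mod_cast hd1
  obtain ⟨B, hB, hBφ⟩ := (hL6 N).1 φ hφ.smooth.continuousOn (fun r z hr hz =>
    hφ.hom r z (by exact_mod_cast hr.ne') hz)
  obtain ⟨φ1, hφ1d⟩ : ∃ φ1 : (Fin N → ℂ) → ℝ, ∀ z, φ1 z = φ z + B := ⟨_, fun _ => rfl⟩
  have hφ1e : φ1 = fun z => φ z + B := funext hφ1d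
  have hφ1 : Hom0 φ1 := by
    refine ⟨?_, fun l z hl hz => ?_⟩
    · rw [hφ1e]
      exact hφ.smooth.add contDiffOn_const
    · rw [hφ1d, hφ1d, hφ.hom l z hl hz]
  have hφ1n : ∀ z, z ≠ 0 → 0 ≤ φ1 z := by
    intro z hz
    rw [hφ1d]
    linarith [neg_le_of_abs_le (hBφ z hz)]
  have hφ1b : ∀ z, z ≠ 0 → |φ1 z| ≤ 2 * B := by
    intro z hz
    rw [abs_of_nonneg (hφ1n z hz), hφ1d]
    linarith [le_of_abs_le (hBφ z hz)]
  obtain ⟨C, hC0, hPot⟩ := (hL6 N).2.2 φ1 hφ1
  have hell : Pot (ell : (Fin N → ℂ) → ℝ) := (hL3 N).1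
  obtain ⟨c, hc, hT⟩ := hTG q
  obtain ⟨c0, hc0d⟩ : ∃ c0 : ℝ, c0 = mass q (om N p) := ⟨_, rfl⟩
  have hc0 : 0 < c0 := by rw [hc0d]; exact ((hD7 N p).2 q hq).1
  have hom : ProjForm (om N p) := (hD7 N p).1
  have hgss : ∫ X : Fin N → Fin N → ℂ, gss X = 1 := (hIA N p (om N p) hp hom).1
  have hgi : Integrable (gss : (Fin N → Fin N → ℂ) → ℝ) := by
    by_contra h
    rw [integral_undef h] at hgss
    exact zero_ne_one hgss
  have hdet : ∀ᵐ X : Fin N → Fin N → ℂ, (Matrix.of X).det ≠ 0 :=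
    (hTH N ⟨0, by omega⟩ ⟨0, by omega⟩).1
  obtain ⟨Ck, hCk⟩ := hKP2 N d p q F φ u hd hq hF hφ hu
  -- the parameters
  obtain ⟨i1, hi1⟩ := hCs q hq φ1 u hφ1 hφ1n hu (ε / 16) (by positivity)
  obtain ⟨K0, hK0d⟩ : ∃ K0 : ℝ, K0 = C * c * c0 := ⟨_, rfl⟩
  have hK0 : 0 < K0 := by rw [hK0d]; positivity
  obtain ⟨δ, hδd⟩ : ∃ δ : ℝ, δ = ε / (32 * K0 * (d : ℝ) ^ i1) := ⟨_, rfl⟩
  have hδ : 0 < δ := by rw [hδd]; positivity
  have hδ2 : K0 * (2 * δ * (d : ℝ) ^ i1) = ε / 16 := by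
    rw [hδd]
    field_simp
    norm_num
  obtain ⟨n0, hn0, hCst⟩ := hi1 δ hδ
  have hbt := bad_tendsto hgi δ hδ d hd
  have hev1 : ∀ᶠ n : ℕ in atTop, ∫ X : Fin N → Fin N → ℂ,
      Set.indicator (bad N (Real.exp (δ * (d : ℝ) ^ n))) gss X < ε / (64 * B * c0) :=
    hbt.eventually_lt_const (by positivity)
  have hdp : Tendsto (fun n : ℕ => (d : ℝ) ^ (n - i1)) atTop atTop := by
    have h1 : Tendsto (fun n : ℕ => (d : ℝ) ^ n) atTop atTop :=
      tendsto_pow_atTop_atTop_of_one_lt (by exact_mod_cast (by omega : 1 < d))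
    exact h1.comp (tendsto_sub_atTop_nat i1)
  have hev2 : ∀ᶠ n : ℕ in atTop, 16 * K0 / ε ≤ (d : ℝ) ^ (n - i1) :=
    hdp.eventually_ge_atTop _
  have hev3 : ∀ᶠ n : ℕ in atTop, 4 * |Ck| / ε ≤ (d : ℝ) ^ (n - i1) :=
    hdp.eventually_ge_atTop _
  obtain ⟨n1, hn1⟩ := eventually_atTop.1 (hev1.and (hev2.and hev3))
  refine ⟨max n0 n1, fun n hn S hS hKS hmS => ?_⟩
  have hnn0 : n0 ≤ n := (le_max_left _ _).trans hn
  obtain ⟨hb1, hb2, hb3⟩ := hn1 n ((le_max_right _ _).trans hn)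
  obtain ⟨m, hm⟩ : ∃ m, n = m + i1 := ⟨n - i1, by omega⟩
  have hm' : n - i1 = m := by omega
  rw [hm'] at hb2 hb3
  obtain ⟨D', hD'⟩ : ∃ D' : ℝ, D' = (d : ℝ) ^ (p * m) := ⟨_, rfl⟩
  have hD'0 : 0 < D' := by rw [hD']; positivity
  have hcast : (((d ^ m : ℕ) : ℝ)) ^ p = D' := by
    rw [hD']
    push_cast
    rw [← pow_mul, mul_comm]
  obtain ⟨θ, hθd⟩ : ∃ θ : ℝ, θ = Real.exp (-(2 * (δ * (d : ℝ) ^ n))) := ⟨_, rfl⟩
  have hθ : 0 < θ := by rw [hθd]; exact Real.exp_pos _
  have hθ1 : θ ≤ 1 := by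
    rw [hθd]
    refine Real.exp_le_one_iff.2 ?_
    have : 0 < δ * (d : ℝ) ^ n := by positivity
    linarith
  have hlog : Real.log (1 / θ) = 2 * (δ * (d : ℝ) ^ n) := by
    rw [one_div, Real.log_inv, hθd, Real.log_exp, neg_neg]
  have hΦ : IsH (d ^ m) (iter F m) := (hD12 N d F hd1 hF 0 m).1
  have hdm : 1 ≤ d ^ m := Nat.one_le_pow _ _ hd1
  -- one form
  have key : ∀ S : Form (Fin N) p, ProjForm S → InK KK S → mass q S = mass q (om N p) →
      |pair φ1 (Sn F d n S) u - pair φ1 (Sn F d m (om N p)) u| ≤ ε / 4 := by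
    intro S hS hKS hmS
    have hS1 : ProjForm (Sn F d i1 S) := (hD12 N d F hd1 hF 0 i1).2.2.2.2 p S hS
    have hmS1 : mass q (Sn F d i1 S) = c0 := by
      rw [((hP5 N p q d S hq hS).2.1 F i1 hd1 hF), hmS, hc0d]
    have hSn : ProjForm (Sn F d n S) := (hD12 N d F hd1 hF 0 n).2.2.2.2 p S hS
    have hmSn : mass q (Sn F d n S) = c0 := by
      rw [((hP5 N p q d S hq hS).2.1 F n hd1 hF), hmS, hc0d]
    obtain ⟨K, hK⟩ : ∃ K : ℝ, K = D' * pair φ1 (Sn F d n S) u := ⟨_, rfl⟩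
    have hKb : |K| ≤ 2 * B * c0 * D' := by
      rw [hK, abs_mul, abs_of_pos hD'0]
      have h1 := (hP3 N p q (Sn F d n S) u hq hSn hu).2.2.2 φ1 (2 * B) hφ1b
      rw [hmSn] at h1
      calc D' * |pair φ1 (Sn F d n S) u| ≤ D' * (2 * B * c0) :=
            mul_le_mul_of_nonneg_left h1 hD'0.le
        _ = _ := by ring
    have ham : ∀ A : Matrix (Fin N) (Fin N) ℂ, am φ1 (iter F m) (Sn F d i1 S) u A =
        C * am (fun z => (ell z + φ1 z / C) - ell z) (iter F m) (Sn F d i1 S) u A := by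
      intro A
      unfold am
      rw [← pair_const]
      have h1 : φ1 = fun z => C * ((ell z + φ1 z / C) - ell z) := by
        funext z
        field_simp
        ring
      exact congrArg (fun f => pair f (pull (cmp (lin A) (iter F m)) (Sn F d i1 S)) u) h1
    obtain ⟨hI1, hI2, hI3⟩ := hT (d ^ m) (iter F m) hdm hΦ (fun z => ell z + φ1 z / C) ell u
      hPot hell hu (Sn F d i1 S) hS1 θ hθ hθ1
    have hJ1 : Integrable (fun X : Fin N → Fin N → ℂ => gss X *
        am φ1 (iter F m) (Sn F d i1 S) u (1 + (θ : ℂ) • Matrix.of X)) := by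
      have h1 := hI1.const_mul C
      have h2 : (fun X : Fin N → Fin N → ℂ => gss X *
          am φ1 (iter F m) (Sn F d i1 S) u (1 + (θ : ℂ) • Matrix.of X)) = fun X => C * (gss X *
          am (fun z => (ell z + φ1 z / C) - ell z) (iter F m) (Sn F d i1 S) u
            (1 + (θ : ℂ) • Matrix.of X)) := by
        funext X
        rw [ham]
        ring
      rw [h2]
      exact h1
    obtain ⟨E1, hE1⟩ : ∃ E1 : ℝ, E1 = ∫ X : Fin N → Fin N → ℂ, gss X *
      am φ1 (iter F m) (Sn F d i1 S) u (1 + (θ : ℂ) • Matrix.of X) := ⟨_, rfl⟩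
    obtain ⟨E2, hE2⟩ : ∃ E2 : ℝ, E2 = ∫ X : Fin N → Fin N → ℂ, gss X *
      am φ1 (iter F m) (Sn F d i1 S) u (Matrix.of X) := ⟨_, rfl⟩
    -- step 3
    have h3 : pair φ1 (Sn F d m (om N p)) u = D'⁻¹ * E2 := by
      rw [pair_Sn, hD', hE2]
      rw [hGM q (d ^ m) (iter F m) hdm hΦ φ1 u hφ1 hu (Sn F d i1 S) hS1 (hmS1.trans hc0d)]
    -- step 2
    have h2 : |E1 - E2| ≤ K0 * (1 + 2 * (δ * (d : ℝ) ^ n)) * (D' / (d : ℝ) ^ m) := by
      have e1 : E1 = C * ∫ X : Fin N → Fin N → ℂ, gss X *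
          am (fun z => (ell z + φ1 z / C) - ell z) (iter F m) (Sn F d i1 S) u
            (1 + (θ : ℂ) • Matrix.of X) := by
        rw [hE1, ← integral_const_mul]
        have h2 : (fun X : Fin N → Fin N → ℂ => gss X *
            am φ1 (iter F m) (Sn F d i1 S) u (1 + (θ : ℂ) • Matrix.of X)) = fun X => C * (gss X *
            am (fun z => (ell z + φ1 z / C) - ell z) (iter F m) (Sn F d i1 S) u
              (1 + (θ : ℂ) • Matrix.of X)) := by
          funext X
          rw [ham]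
          ring
        rw [h2]
      have e2 : E2 = C * ∫ X : Fin N → Fin N → ℂ, gss X *
          am (fun z => (ell z + φ1 z / C) - ell z) (iter F m) (Sn F d i1 S) u
            (Matrix.of X) := by
        rw [hE2, ← integral_const_mul]
        have h2 : (fun X : Fin N → Fin N → ℂ => gss X *
            am φ1 (iter F m) (Sn F d i1 S) u (Matrix.of X)) = fun X => C * (gss X *
            am (fun z => (ell z + φ1 z / C) - ell z) (iter F m) (Sn F d i1 S) u
              (Matrix.of X)) := by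
          funext X
          rw [ham]
          ring
        rw [h2]
      rw [e1, e2, ← mul_sub, abs_mul, abs_of_pos hC0]
      refine (mul_le_mul_of_nonneg_left hI3 hC0.le).trans (le_of_eq ?_)
      rw [hcast, hlog, hmS1, hK0d]
      push_cast
      ring
    -- step 1
    obtain ⟨Pb, hPb⟩ : ∃ Pb : ℝ, Pb = ∫ X : Fin N → Fin N → ℂ,
      Set.indicator (bad N (Real.exp (δ * (d : ℝ) ^ n))) gss X := ⟨_, rfl⟩
    have h1 : |E1 - K| ≤ D' * (ε / 16) + 4 * B * c0 * D' * Pb := by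
      have e1 : E1 - K = ∫ X : Fin N → Fin N → ℂ, (gss X *
          am φ1 (iter F m) (Sn F d i1 S) u (1 + (θ : ℂ) • Matrix.of X) - gss X * K) := by
        rw [integral_sub hJ1 (hgi.mul_const K), integral_mul_const, hgss, one_mul, hE1]
      have hbi : Integrable (fun X : Fin N → Fin N → ℂ =>
          Set.indicator (bad N (Real.exp (δ * (d : ℝ) ^ n))) gss X) :=
        hgi.indicator (bad_open N _).measurableSet
      have hg : Integrable (fun X : Fin N → Fin N → ℂ => gss X * (D' * (ε / 16)) +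
          4 * B * c0 * D' * Set.indicator (bad N (Real.exp (δ * (d : ℝ) ^ n))) gss X) :=
        (hgi.mul_const _).add (hbi.const_mul _)
      rw [e1, ← Real.norm_eq_abs]
      refine (norm_integral_le_of_norm_le hg ?_).trans (le_of_eq ?_)
      · filter_upwards [null_shift hdet θ hθ] with X hX
        rw [← mul_sub, norm_mul, Real.norm_eq_abs, Real.norm_eq_abs, abs_of_nonneg (gss_nonneg X)]
        by_cases hXb : X ∈ bad N (Real.exp (δ * (d : ℝ) ^ n))
        · rw [Set.indicator_of_mem hXb]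
          have e2 := (hTN N p q (d ^ m) (iter F m) (Sn F d i1 S) φ1 u (2 * B) hq hdm hΦ hS1 hφ1
            hu hφ1b).2.1 _ hX
          rw [hcast, hmS1] at e2
          have e3 : |am φ1 (iter F m) (Sn F d i1 S) u (1 + (θ : ℂ) • Matrix.of X) - K| ≤
              4 * B * c0 * D' := by
            refine (abs_sub _ _).trans ?_
            calc _ ≤ 2 * B * (D' * c0) + 2 * B * c0 * D' := add_le_add e2 hKb
              _ = _ := by ring
          have e4 := mul_le_mul_of_nonneg_left e3 (gss_nonneg X)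
          have e5 : 0 ≤ gss X * (D' * (ε / 16)) := mul_nonneg (gss_nonneg X) (by positivity)
          calc _ ≤ gss X * (4 * B * c0 * D') := e4
            _ = 4 * B * c0 * D' * gss X := by ring
            _ ≤ _ := le_add_of_nonneg_left e5
        · rw [Set.indicator_of_notMem hXb, mul_zero, add_zero]
          refine mul_le_mul_of_nonneg_left ?_ (gss_nonneg X)
          have e2 : ∀ i j, ‖(1 + (θ : ℂ) • Matrix.of X : Matrix (Fin N) (Fin N) ℂ) i j -
              (1 : Matrix (Fin N) (Fin N) ℂ) i j‖ ≤ Real.exp (-(δ * (d : ℝ) ^ n)) := by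
            intro i j
            have e3 : (1 + (θ : ℂ) • Matrix.of X : Matrix (Fin N) (Fin N) ℂ) i j -
                (1 : Matrix (Fin N) (Fin N) ℂ) i j = (θ : ℂ) * X i j := by
              simp
            have e4 : ‖X i j‖ ≤ Real.exp (δ * (d : ℝ) ^ n) := by
              by_contra h
              exact hXb ⟨i, j, not_le.1 h⟩
            rw [e3, norm_mul, Complex.norm_real, Real.norm_eq_abs, abs_of_pos hθ]
            calc θ * ‖X i j‖ ≤ θ * Real.exp (δ * (d : ℝ) ^ n) :=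
                  mul_le_mul_of_nonneg_left e4 hθ.le
              _ = Real.exp (-(δ * (d : ℝ) ^ n)) := by
                  rw [hθd, ← Real.exp_add]
                  ring_nf
          have e5 := hCst n hnn0 S hS hKS hmS _ e2
          rw [hm', ← hD', ← hK] at e5
          calc _ ≤ ε / 16 * D' := e5
            _ = _ := by ring
      · rw [integral_add (hgi.mul_const _) (hbi.const_mul _), integral_mul_const,
          integral_const_mul, hgss, one_mul, hPb]
    -- conclusion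
    have h5 : pair φ1 (Sn F d n S) u = D'⁻¹ * K := by
      rw [hK, ← mul_assoc, inv_mul_cancel₀ hD'0.ne', one_mul]
    rw [h5, h3, ← mul_sub, abs_mul, abs_of_pos (inv_pos.2 hD'0)]
    have h6 : |K - E2| ≤ D' * (ε / 16) + 4 * B * c0 * D' * Pb +
        K0 * (1 + 2 * (δ * (d : ℝ) ^ n)) * (D' / (d : ℝ) ^ m) := by
      have h7 : K - E2 = (E1 - E2) - (E1 - K) := by ring
      rw [h7]
      refine (abs_sub _ _).trans ?_
      linarith
    have hdm0 : (0 : ℝ) < (d : ℝ) ^ m := by positivity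
    have h8 : K0 * (1 + 2 * (δ * (d : ℝ) ^ n)) * (D' / (d : ℝ) ^ m) =
        D' * (K0 / (d : ℝ) ^ m + ε / 16) := by
      rw [← hδ2, hm, pow_add]
      field_simp
    have h9 : K0 / (d : ℝ) ^ m ≤ ε / 16 := by
      rw [div_le_iff₀ hdm0]
      rw [div_le_iff₀ hε] at hb2
      linarith
    have h10 : 4 * B * c0 * Pb ≤ ε / 16 := by
      have h11 : Pb ≤ ε / (64 * B * c0) := by rw [hPb]; exact hb1.le
      calc 4 * B * c0 * Pb ≤ 4 * B * c0 * (ε / (64 * B * c0)) :=
            mul_le_mul_of_nonneg_left h11 (by positivity)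
        _ = ε / 16 := by
            field_simp
            norm_num
    have h12 : |K - E2| ≤ D' * (ε / 4) := by
      refine h6.trans ?_
      rw [h8]
      have h13 : D' * (4 * B * c0 * Pb) ≤ D' * (ε / 16) := mul_le_mul_of_nonneg_left h10 hD'0.le
      have h14 : D' * (K0 / (d : ℝ) ^ m) ≤ D' * (ε / 16) := mul_le_mul_of_nonneg_left h9 hD'0.le
      linarith
    calc D'⁻¹ * |K - E2| ≤ D'⁻¹ * (D' * (ε / 4)) :=
          mul_le_mul_of_nonneg_left h12 (inv_pos.2 hD'0).le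
      _ = ε / 4 := by rw [← mul_assoc, inv_mul_cancel₀ hD'0.ne', one_mul]
  -- from `φ1` to `φ`
  have hdiff : ∀ (n : ℕ) (S : Form (Fin N) p), ProjForm S → mass q S = mass q (om N p) →
      pair φ1 (Sn F d n S) u = pair φ (Sn F d n S) u + B * c0 := by
    intro n S hS hmS
    have hSn : ProjForm (Sn F d n S) := (hD12 N d F hd1 hF 0 n).2.2.2.2 p S hS
    have hmSn : mass q (Sn F d n S) = c0 := by
      rw [((hP5 N p q d S hq hS).2.1 F n hd1 hF), hmS, hc0d]
    have hLH : ∀ j, LH (1 : ℝ) (u j) := fun j => (hL1 N 0 0 0 0 (u j) (u j)).2.2.1 (hu j)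
    have hint := (hP1 N p q (Sn F d n S) u (fun _ => 1) hq hSn hLH).2
    have i1' := hint φ hφ.smooth.continuousOn
    have i2' := hint (fun _ => 1) continuousOn_const
    have h1 := (hP3 N p q (Sn F d n S) u hq hSn hu).2.2.1
    rw [hmSn] at h1
    rw [← h1, ← pair_const, hφ1e]
    unfold pair Iint
    have i3' : IntegrableOn (fun z => B * (fun _ : Fin N → ℂ => (1 : ℝ)) z * Q (Sn F d n S) u z)
        {z : Fin N → ℂ | 0 ≤ ell z ∧ ell z < 1} := by
      have h2 : (fun z => B * (fun _ : Fin N → ℂ => (1 : ℝ)) z * Q (Sn F d n S) u z) =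
          fun z => B * ((fun _ : Fin N → ℂ => (1 : ℝ)) z * Q (Sn F d n S) u z) :=
        funext fun z => mul_assoc _ _ _
      rw [h2]
      exact i2'.const_mul B
    rw [← integral_add i1' i3']
    have h3 : (fun z => (φ z + B) * Q (Sn F d n S) u z) = fun z => φ z * Q (Sn F d n S) u z +
        B * (fun _ : Fin N → ℂ => (1 : ℝ)) z * Q (Sn F d n S) u z := by
      funext z
      ring
    rw [h3]
  have k1 := key S hS hKS hmS
  have k2 := hCk m n (by omega)
  have hdm0 : (0 : ℝ) < (d : ℝ) ^ m := by positivity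
  have k4 : Ck / (d : ℝ) ^ m ≤ ε / 4 := by
    rw [div_le_iff₀ hdm0]
    rw [div_le_iff₀ hε] at hb3
    linarith [le_abs_self Ck]
  have k3 : pair φ (Sn F d n S) u - pair φ (Sn F d n (om N p)) u =
      (pair φ1 (Sn F d n S) u - pair φ1 (Sn F d m (om N p)) u) -
      (pair φ (Sn F d n (om N p)) u - pair φ (Sn F d m (om N p)) u) := by
    rw [hdiff n S hS hmS, hdiff m (om N p) hom rfl]
    ring
  rw [k3]
  calc _ ≤ _ := abs_sub _ _
    _ ≤ ε / 4 + ε / 4 := add_le_add k1 (k2.trans k4)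
    _ < ε := by linarith

end

end Pool.Agent.H4.EQ
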