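import Pool.Agent.H92.EQ.TK

/-!
# MP_75a732_an: row KS (summation over the levels)
-/

set_option autoImplicit false

namespace Pool.Agent.H4.EQ

open scoped BigOperators ComplexConjugate ContDiff ComplexOrder
open MeasureTheory Filter Topology
open Pool.Agent.H92.EQ

theorem ks (hD7 : T_D7) (hK1 : T_KEY1) (hK2 : T_KEY2) : T_KS := by
  classical
  intro N d p q F hd hpq hF hconv hP η hη
  obtain ⟨C1, hC1, hk1⟩ := hK1 N d p q F hd hpq hF
  obtain ⟨C2, hC2, hk2⟩ := hK2 N d p q F hd hpq hF hconv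
  obtain ⟨M, hM⟩ : ∃ M : ℝ, M = mass q (om N p) := ⟨_, rfl⟩
  have hM0 : 0 < M := by
    rw [hM]
    exact ((hD7 N p).2 q hpq).1
  obtain ⟨C, hC⟩ : ∃ C : ℝ, C = max C1 C2 := ⟨_, rfl⟩
  have hCC1 : C1 ≤ C := hC ▸ le_max_left _ _
  have hCC2 : C2 ≤ C := hC ▸ le_max_right _ _
  have hC0 : 0 < C := lt_of_lt_of_le hC1 hCC1
  obtain ⟨i1', n0', hPm⟩ := hP (η / 16) (by positivity)
  refine ⟨max i1' 1, fun δ hδ => ?_⟩
  have hd1 : (1 : ℝ) < d := by
    have : 1 < d := by omega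
    exact_mod_cast this
  have hd0 : (0 : ℝ) < d := by linarith
  have hr1 : |(1 / (d : ℝ))| < 1 := by
    rw [abs_of_pos (by positivity), div_lt_one hd0]
    exact hd1
  -- the convergent series
  obtain ⟨f, hf⟩ : ∃ f : ℕ → ℝ, f = fun i : ℕ => C / δ * ((i : ℝ) ^ 2 * (1 / (d : ℝ)) ^ i) :=
    ⟨_, rfl⟩
  have hfs : Summable f := by
    rw [hf]
    refine Summable.mul_left _ ?_
    exact summable_pow_mul_geometric_of_norm_lt_one 2 (by rwa [Real.norm_eq_abs])
  obtain ⟨s, hs⟩ := summable_iff_vanishing_norm.1 hfs (η / 8) (by positivity)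
  obtain ⟨i0, hi0⟩ : ∃ i0 : ℕ, i0 = s.sup id := ⟨_, rfl⟩
  -- the levels up to `i0`
  have hk2' : ∀ i : ℕ, ∃ n0 : ℕ, 1 ≤ i → ∀ n ≥ n0, ∀ (r h : ℝ) (S : Form (Fin N) p), 0 < r →
      r ≤ 1 → 0 ≤ h → Hit F d i r h → ProjForm S → mass q S = mass q (om N p) →
      beta F d n i q (Real.exp (-(δ / (i : ℝ) ^ 2 * (d : ℝ) ^ n))) S ≤
        (2 * h + η / (8 * (i0 + 1)) + (2 * Real.log (1 / r) + C2) /
          (δ / (i : ℝ) ^ 2 * (d : ℝ) ^ n)) * mass q (om N p) := by
    intro i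
    by_cases hi : 1 ≤ i
    · have hi' : (0 : ℝ) < i := by exact_mod_cast hi
      obtain ⟨n0, -, h⟩ := hk2 i (δ / (i : ℝ) ^ 2) (η / (8 * (i0 + 1))) (by positivity)
        (by positivity)
      exact ⟨n0, fun _ => h⟩
    · exact ⟨0, fun h => absurd h hi⟩
  choose m0 hm0 using hk2'
  -- the last term
  have hlim : Tendsto (fun n : ℕ => (2 * (1 / (n : ℝ)) + C * ((n : ℝ) ^ 3 * (1 / (d : ℝ)) ^ n)) / δ)
      atTop (𝓝 0) := by
    have h1 := (tendsto_one_div_atTop_nhds_zero_nat (𝕜 := ℝ)).const_mul 2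
    have h2 := (tendsto_pow_const_mul_const_pow_of_abs_lt_one 3 hr1).const_mul C
    have h3 := (h1.add h2).div_const δ
    simpa using h3
  obtain ⟨n1, hn1⟩ := eventually_atTop.1 (hlim.eventually_le_const (show (0 : ℝ) < η / 8 by
    positivity))
  obtain ⟨n2, hn2⟩ : ∃ n2 : ℕ, n2 = (Finset.range (i0 + 1)).sup m0 := ⟨_, rfl⟩
  refine ⟨max (max (max i1' 1) n0') (max n1 n2),
    (le_max_left _ _).trans (le_max_left _ _), fun n hn S hS hmS => ?_⟩
  have hnn0 : n0' ≤ n := ((le_max_right _ _).trans (le_max_left _ _)).trans hn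
  have hnn1 : n1 ≤ n := ((le_max_left _ _).trans (le_max_right _ _)).trans hn
  have hnn2 : n2 ≤ n := ((le_max_right _ _).trans (le_max_right _ _)).trans hn
  have hn1' : 1 ≤ n := (((le_max_right _ _).trans (le_max_left _ _)).trans
    (le_max_left _ _)).trans hn
  have hnR : (1 : ℝ) ≤ n := by exact_mod_cast hn1'
  have hn0R : (0 : ℝ) < n := by linarith
  obtain ⟨h, hh0, hhs, hhit⟩ := hPm n hnn0
  obtain ⟨r, hr⟩ : ∃ r : ℝ, r = Real.exp (-((d : ℝ) ^ n / (n : ℝ) ^ 4)) := ⟨_, rfl⟩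
  have hr0 : 0 < r := hr ▸ Real.exp_pos _
  have hr1' : r ≤ 1 := by
    rw [hr]
    apply Real.exp_le_one_iff.2
    have : 0 ≤ (d : ℝ) ^ n / (n : ℝ) ^ 4 := by positivity
    linarith
  have hlog : Real.log (1 / r) = (d : ℝ) ^ n / (n : ℝ) ^ 4 := by
    rw [hr, one_div, ← Real.exp_neg, neg_neg, Real.log_exp]
  have hHit : ∀ i ∈ Finset.Icc i1' n, Hit F d i r (h i) := by
    intro i hi
    rw [hr]
    exact hhit i hi
  obtain ⟨E, hE⟩ : ∃ E : ℝ, E = (n : ℝ) ^ 2 * (2 / (n : ℝ) ^ 4 + C * (1 / (d : ℝ)) ^ n) / δ :=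
    ⟨_, rfl⟩
  have hdn : (0 : ℝ) < (d : ℝ) ^ n := by positivity
  -- the last term of both estimates
  have hlast : ∀ (i : ℕ) (C' : ℝ), 1 ≤ i → i ≤ n → 0 < C' → C' ≤ C →
      (2 * Real.log (1 / r) + C') / (δ / (i : ℝ) ^ 2 * (d : ℝ) ^ n) ≤ E := by
    intro i C' hi hin hC' hCC
    have hiR : (0 : ℝ) < i := by exact_mod_cast hi
    have hinR : (i : ℝ) ≤ n := by exact_mod_cast hin
    rw [hlog]
    have e1 : (2 * ((d : ℝ) ^ n / (n : ℝ) ^ 4) + C') / (δ / (i : ℝ) ^ 2 * (d : ℝ) ^ n) =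
        (i : ℝ) ^ 2 * (2 / (n : ℝ) ^ 4 + C' * (1 / (d : ℝ)) ^ n) / δ := by
      rw [one_div, inv_pow]
      field_simp
    rw [e1, hE]
    refine div_le_div_of_nonneg_right ?_ hδ.le
    refine mul_le_mul (pow_le_pow_left₀ hiR.le hinR 2) ?_ (by positivity) (by positivity)
    have : C' * (1 / (d : ℝ)) ^ n ≤ C * (1 / (d : ℝ)) ^ n :=
      mul_le_mul_of_nonneg_right hCC (by positivity)
    linarith
  -- the estimate of one term
  have hterm : ∀ i ∈ Finset.Ioc (max i1' 1) n,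
      beta F d n i q (Real.exp (-(δ / (i : ℝ) ^ 2 * (d : ℝ) ^ n))) S ≤
        (2 * h i + (if i ≤ i0 then η / (8 * (i0 + 1)) else f i) + E) * M := by
    intro i hi
    rw [Finset.mem_Ioc] at hi
    have hi1 : 1 ≤ i := by
      have := le_max_right i1' 1
      omega
    have hi1' : i1' ≤ i := by
      have := le_max_left i1' 1
      omega
    have hiR : (0 : ℝ) < i := by exact_mod_cast hi1
    have hH := hHit i (Finset.mem_Icc.2 ⟨hi1', hi.2⟩)
    by_cases hii : i ≤ i0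
    · rw [if_pos hii]
      have hm : m0 i ≤ n2 := by
        rw [hn2]
        exact Finset.le_sup (f := m0) (Finset.mem_range.2 (by omega))
      refine (hm0 i hi1 n (hm.trans hnn2) r (h i) S hr0 hr1' (hh0 i) hH hS hmS).trans ?_
      rw [← hM]
      refine mul_le_mul_of_nonneg_right ?_ hM0.le
      have := hlast i C2 hi1 hi.2 hC2 hCC2
      linarith
    · rw [if_neg hii]
      have h1 := hk1 n i (δ / (i : ℝ) ^ 2) r (h i) S hi.2 (by positivity) hr0 hr1' (hh0 i) hH hS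
        hmS
      refine h1.trans ?_
      rw [← hM]
      refine mul_le_mul_of_nonneg_right ?_ hM0.le
      have h2 := hlast i C1 hi1 hi.2 hC1 hCC1
      have h3 : C1 / (δ / (i : ℝ) ^ 2 * (d : ℝ) ^ i) ≤ f i := by
        have e1 : f i = C / (δ / (i : ℝ) ^ 2 * (d : ℝ) ^ i) := by
          rw [hf]
          show C / δ * ((i : ℝ) ^ 2 * (1 / (d : ℝ)) ^ i) = _
          rw [one_div, inv_pow]
          field_simp
        rw [e1]
        exact div_le_div_of_nonneg_right hCC1 (by positivity)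
      linarith
  refine (Finset.sum_le_sum hterm).trans ?_
  rw [← Finset.sum_mul, Finset.sum_add_distrib, Finset.sum_add_distrib, ← hM]
  refine mul_le_mul_of_nonneg_right ?_ hM0.le
  -- the three sums
  have hs1 : ∑ i ∈ Finset.Ioc (max i1' 1) n, 2 * h i ≤ η / 8 := by
    rw [← Finset.mul_sum]
    have h1 : ∑ i ∈ Finset.Ioc (max i1' 1) n, h i ≤ ∑ i ∈ Finset.Icc i1' n, h i := by
      refine Finset.sum_le_sum_of_subset_of_nonneg ?_ fun i _ _ => hh0 i
      intro i hi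
      rw [Finset.mem_Ioc] at hi
      rw [Finset.mem_Icc]
      have := le_max_left i1' 1
      omega
    linarith
  have hs2 : ∑ i ∈ Finset.Ioc (max i1' 1) n, (if i ≤ i0 then η / (8 * (i0 + 1)) else f i) ≤
      η / 8 + η / 8 := by
    rw [← Finset.sum_filter_add_sum_filter_not (Finset.Ioc (max i1' 1) n) (fun i => i ≤ i0)]
    refine add_le_add ?_ ?_
    · rw [Finset.sum_congr rfl fun i hi => if_pos (Finset.mem_filter.1 hi).2, Finset.sum_const,
        nsmul_eq_mul]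
      have h1 : (((Finset.Ioc (max i1' 1) n).filter fun i => i ≤ i0).card : ℝ) ≤ i0 + 1 := by
        have h2 : ((Finset.Ioc (max i1' 1) n).filter fun i => i ≤ i0) ⊆
            Finset.range (i0 + 1) := by
          intro i hi
          rw [Finset.mem_filter] at hi
          rw [Finset.mem_range]
          omega
        have h3 := Finset.card_le_card h2
        rw [Finset.card_range] at h3
        exact_mod_cast h3
      have h4 : (0 : ℝ) < i0 + 1 := by positivity
      calc (((Finset.Ioc (max i1' 1) n).filter fun i => i ≤ i0).card : ℝ) *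
            (η / (8 * (i0 + 1))) ≤ (i0 + 1) * (η / (8 * (i0 + 1))) :=
            mul_le_mul_of_nonneg_right h1 (by positivity)
        _ = η / 8 := by field_simp
    · rw [Finset.sum_congr rfl fun i hi => if_neg (Finset.mem_filter.1 hi).2]
      have h1 := hs ((Finset.Ioc (max i1' 1) n).filter fun i => ¬ i ≤ i0) (by
        rw [Finset.disjoint_left]
        intro i hi his
        apply (Finset.mem_filter.1 hi).2
        rw [hi0]
        exact Finset.le_sup (f := id) his)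
      exact (Real.le_norm_self _).trans h1.le
  have hs3 : ∑ _i ∈ Finset.Ioc (max i1' 1) n, E ≤ η / 8 := by
    rw [Finset.sum_const, nsmul_eq_mul, Nat.card_Ioc]
    have hE0 : 0 ≤ E := by
      rw [hE]
      positivity
    have h1 : ((n - max i1' 1 : ℕ) : ℝ) ≤ n := by
      exact_mod_cast Nat.sub_le _ _
    have h2 : (n : ℝ) * E =
        (2 * (1 / (n : ℝ)) + C * ((n : ℝ) ^ 3 * (1 / (d : ℝ)) ^ n)) / δ := by
      rw [hE]
      field_simp
    calc ((n - max i1' 1 : ℕ) : ℝ) * E ≤ n * E := mul_le_mul_of_nonneg_right h1 hE0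
      _ ≤ η / 8 := by
          rw [h2]
          exact hn1 n hnn1
  linarith

end Pool.Agent.H4.EQ
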