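import Mathlib

/-!
# Row PRN: the numerical part
-/

set_option autoImplicit false

open Filter Finset

namespace Pool.Agent.H4.EQ

/-- the choice of `θ` -/
theorem prn_theta (t d : ℕ) (δ CF : ℝ) (hd : 2 ≤ d) (hδ0 : 0 < δ) (hδ1 : δ < 1)
    (hCF : 0 < CF) : ∃ θ : ℝ, 1 < θ ∧ θ ≤ 3 / 2 ∧ ∀ (κ m : ℝ) (n K : ℕ) (q : ℕ → ℝ), 0 ≤ m →
      0 ≤ κ → K ≤ n + 1 → (∀ l, l < K → 0 ≤ q l) → ∑ l ∈ range K, q l ≤ (1 - δ) * m →
      (∀ l, 1 ≤ l → l < K → q l ≤ CF * (l / (d : ℝ) ^ l + κ) * m) →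
      CF * (((n : ℝ) + 1) * (3 / 2) ^ (t + n + 2)) * κ ≤ δ / 8 →
      ∑ l ∈ range K, θ ^ (t + l + 1) * q l ≤ (1 - δ / 2) * m := by
  obtain ⟨f, hf⟩ : ∃ f : ℕ → ℝ, f = fun l : ℕ => CF * (3 / 2) ^ (t + 1) * ((l : ℝ) ^ 1 *
    (3 / 4) ^ l) := ⟨_, rfl⟩
  have hfs : Summable f := by
    rw [hf]
    apply Summable.mul_left
    apply summable_pow_mul_geometric_of_norm_lt_one 1
    rw [Real.norm_eq_abs, abs_of_pos (by norm_num)]
    norm_num
  have hf0 : ∀ l, 0 ≤ f l := by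
    intro l
    rw [hf]
    positivity
  obtain ⟨s, hs⟩ := summable_iff_vanishing_norm.1 hfs (δ / 8) (by positivity)
  obtain ⟨J, hJ⟩ : ∃ J, J = s.sup id + 1 := ⟨_, rfl⟩
  have hJs : ∀ l ∈ s, l < J := by
    intro l hl
    have h1 : id l ≤ s.sup id := Finset.le_sup hl
    rw [id] at h1
    omega
  have hcont : ContinuousAt (fun x : ℝ => x ^ (t + J + 1)) 1 := (continuous_pow _).continuousAt
  have hev1 : ∀ᶠ x : ℝ in nhds 1, x ^ (t + J + 1) < 1 + δ / 8 := by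
    have h1 : (fun x : ℝ => x ^ (t + J + 1)) 1 < 1 + δ / 8 := by
      simp only [one_pow]
      linarith
    exact hcont.eventually_lt continuousAt_const h1
  have hev2 : ∀ᶠ x : ℝ in nhds 1, x < 3 / 2 := eventually_lt_nhds (by norm_num)
  have hev : ∀ᶠ x : ℝ in nhdsWithin 1 (Set.Ioi 1), (x ^ (t + J + 1) < 1 + δ / 8 ∧ x < 3 / 2) ∧
      1 < x :=
    ((hev1.and hev2).filter_mono nhdsWithin_le_nhds).and
      (eventually_mem_of_tendsto_nhdsWithin tendsto_id)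
  obtain ⟨θ, ⟨hθ1, hθ2⟩, hθ3⟩ := hev.exists
  refine ⟨θ, hθ3, hθ2.le, ?_⟩
  intro κ m n K q hm hκ hK hq hsum hqb hsmall
  have hθ0 : 0 < θ := by linarith
  have hterm : ∀ l ∈ range K, θ ^ (t + l + 1) * q l ≤ (1 + δ / 8) * q l +
      (if J ≤ l then f l else 0) * m + CF * (3 / 2) ^ (t + n + 2) * κ * m := by
    intro l hl
    have hlK := Finset.mem_range.1 hl
    have hr : 0 ≤ CF * (3 / 2) ^ (t + n + 2) * κ * m := by positivity
    have hq0 := hq l hlK
    split_ifs with hJl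
    · have h1 := hqb l (by omega) hlK
      have h2 : θ ^ (t + l + 1) ≤ (3 / 2) ^ (t + l + 1) := pow_le_pow_left₀ hθ0.le hθ2.le _
      have h3 : θ ^ (t + l + 1) * q l ≤
          (3 / 2) ^ (t + l + 1) * (CF * (l / (d : ℝ) ^ l + κ) * m) :=
        mul_le_mul h2 h1 hq0 (by positivity)
      have h4 : (3 / 2 : ℝ) ^ (t + l + 1) * (l / (d : ℝ) ^ l) ≤
          (3 / 2) ^ (t + 1) * ((l : ℝ) ^ 1 * (3 / 4) ^ l) := by
        have h5 : (l : ℝ) / (d : ℝ) ^ l ≤ (l : ℝ) / 2 ^ l := by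
          apply div_le_div_of_nonneg_left (Nat.cast_nonneg _) (by positivity)
          exact pow_le_pow_left₀ (by norm_num) (by exact_mod_cast hd) _
        calc (3 / 2 : ℝ) ^ (t + l + 1) * (l / (d : ℝ) ^ l) ≤
              (3 / 2) ^ (t + l + 1) * ((l : ℝ) / 2 ^ l) :=
              mul_le_mul_of_nonneg_left h5 (by positivity)
          _ = (3 / 2) ^ (t + 1) * ((l : ℝ) ^ 1 * (3 / 4) ^ l) := by
              have h6 : (3 / 4 : ℝ) ^ l = (3 / 2) ^ l / 2 ^ l := by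
                rw [← div_pow]
                norm_num
              rw [h6, pow_one, show t + l + 1 = (t + 1) + l by ring, pow_add]
              ring
      have h7 : (3 / 2 : ℝ) ^ (t + l + 1) ≤ (3 / 2) ^ (t + n + 2) :=
        pow_le_pow_right₀ (by norm_num) (by omega)
      have h8 : (3 / 2) ^ (t + l + 1) * (CF * (l / (d : ℝ) ^ l + κ) * m) ≤
          f l * m + CF * (3 / 2) ^ (t + n + 2) * κ * m := by
        have h9 := mul_le_mul_of_nonneg_left h4 (mul_nonneg hCF.le hm)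
        have h10 := mul_le_mul_of_nonneg_left h7 (mul_nonneg (mul_nonneg hCF.le hκ) hm)
        rw [hf]
        calc _ = CF * m * ((3 / 2 : ℝ) ^ (t + l + 1) * (l / (d : ℝ) ^ l)) +
              CF * κ * m * (3 / 2) ^ (t + l + 1) := by ring
          _ ≤ CF * m * ((3 / 2) ^ (t + 1) * ((l : ℝ) ^ 1 * (3 / 4) ^ l)) +
              CF * κ * m * (3 / 2) ^ (t + n + 2) := add_le_add h9 h10
          _ = _ := by ring
      have h11 : 0 ≤ (1 + δ / 8) * q l := by positivity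
      linarith
    · have h2 : θ ^ (t + l + 1) ≤ θ ^ (t + J + 1) := pow_le_pow_right₀ hθ3.le (by omega)
      have h3 : θ ^ (t + l + 1) * q l ≤ (1 + δ / 8) * q l :=
        mul_le_mul_of_nonneg_right (h2.trans hθ1.le) hq0
      linarith
  have hsumf : ∑ l ∈ range K, (if J ≤ l then f l else 0) ≤ δ / 8 := by
    rw [← Finset.sum_filter]
    have h1 := hs ((range K).filter fun l => J ≤ l) (by
      rw [Finset.disjoint_left]
      intro l hl hls
      have h2 := (Finset.mem_filter.1 hl).2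
      have h3 := hJs l hls
      omega)
    exact (le_abs_self _).trans h1.le
  calc ∑ l ∈ range K, θ ^ (t + l + 1) * q l ≤ ∑ l ∈ range K, ((1 + δ / 8) * q l +
        (if J ≤ l then f l else 0) * m + CF * (3 / 2) ^ (t + n + 2) * κ * m) :=
        Finset.sum_le_sum hterm
    _ = (1 + δ / 8) * (∑ l ∈ range K, q l) +
        (∑ l ∈ range K, (if J ≤ l then f l else 0)) * m +
        K * (CF * (3 / 2) ^ (t + n + 2) * κ * m) := by
        rw [Finset.sum_add_distrib, Finset.sum_add_distrib, Finset.mul_sum, Finset.sum_mul,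
          Finset.sum_const, Finset.card_range, nsmul_eq_mul]
    _ ≤ (1 + δ / 8) * ((1 - δ) * m) + δ / 8 * m + δ / 8 * m := by
        have h1 : (K : ℝ) * (CF * (3 / 2) ^ (t + n + 2) * κ * m) ≤ δ / 8 * m := by
          have h2 : (K : ℝ) ≤ (n : ℝ) + 1 := by exact_mod_cast hK
          calc (K : ℝ) * (CF * (3 / 2) ^ (t + n + 2) * κ * m) ≤
                ((n : ℝ) + 1) * (CF * (3 / 2) ^ (t + n + 2) * κ * m) :=
                mul_le_mul_of_nonneg_right h2 (by positivity)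
            _ = (CF * (((n : ℝ) + 1) * (3 / 2) ^ (t + n + 2)) * κ) * m := by ring
            _ ≤ _ := mul_le_mul_of_nonneg_right hsmall hm
        have h3 : (1 + δ / 8) * (∑ l ∈ range K, q l) ≤ (1 + δ / 8) * ((1 - δ) * m) :=
          mul_le_mul_of_nonneg_left hsum (by positivity)
        have h4 := mul_le_mul_of_nonneg_right hsumf hm
        linarith
    _ ≤ _ := by nlinarith [mul_nonneg hm hδ0.le, mul_nonneg (mul_nonneg hm hδ0.le) hδ0.le]

/-- the growth of the logarithm of the radius -/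
theorem prn_growth (d : ℕ) (hd : 2 ≤ d) (c2 K : ℝ) : ∀ᶠ n : ℕ in atTop,
    K * (((n : ℝ) + 1) * (3 / 2) ^ n) ≤ (d : ℝ) ^ n / (n : ℝ) ^ 4 - Real.log c2 := by
  obtain ⟨K', hK'⟩ : ∃ K' : ℝ, K' = |K| + |Real.log c2| + 1 := ⟨_, rfl⟩
  have hK0 : 0 < K' := by rw [hK']; positivity
  have h1 := (tendsto_pow_const_mul_const_pow_of_abs_lt_one 5
    (show |(3 / 4 : ℝ)| < 1 by rw [abs_of_pos (by norm_num)]; norm_num)).eventually_lt_const
    (show (0 : ℝ) < 1 / (2 * K') by positivity)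
  filter_upwards [h1, eventually_ge_atTop 1] with n hn hn1
  have hn0 : (1 : ℝ) ≤ n := by exact_mod_cast hn1
  have hA : 1 ≤ ((n : ℝ) + 1) * (3 / 2) ^ n := by
    have h2 : (1 : ℝ) ≤ (3 / 2) ^ n := one_le_pow₀ (by norm_num)
    nlinarith
  have hmain : K' * (((n : ℝ) + 1) * (3 / 2) ^ n) ≤ (d : ℝ) ^ n / (n : ℝ) ^ 4 := by
    rw [le_div_iff₀ (by positivity)]
    have h3 : (3 / 4 : ℝ) ^ n = (3 / 2) ^ n / 2 ^ n := by
      rw [← div_pow]
      norm_num
    rw [h3, lt_div_iff₀ (by positivity)] at hn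
    have h2p : (0 : ℝ) < 2 ^ n := by positivity
    have h4 : (n : ℝ) ^ 5 * (3 / 2) ^ n * (2 * K') < 2 ^ n := by
      have h5 : (n : ℝ) ^ 5 * ((3 / 2) ^ n / 2 ^ n) * (2 * K') =
          (n : ℝ) ^ 5 * (3 / 2) ^ n * (2 * K') / 2 ^ n := by ring
      rw [h5, div_lt_one h2p] at hn
      exact hn
    have h6 : (2 : ℝ) ^ n ≤ (d : ℝ) ^ n := pow_le_pow_left₀ (by norm_num)
      (by exact_mod_cast hd) _
    calc K' * (((n : ℝ) + 1) * (3 / 2) ^ n) * (n : ℝ) ^ 4 ≤
          K' * ((n + n) * (3 / 2) ^ n) * (n : ℝ) ^ 4 := by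
          have h7 : (n : ℝ) + 1 ≤ n + n := by linarith
          gcongr
      _ = (n : ℝ) ^ 5 * (3 / 2) ^ n * (2 * K') := by ring
      _ ≤ _ := h4.le.trans h6
  have h8 : K * (((n : ℝ) + 1) * (3 / 2) ^ n) + Real.log c2 ≤
      K' * (((n : ℝ) + 1) * (3 / 2) ^ n) := by
    rw [hK']
    nlinarith [le_abs_self K, le_abs_self (Real.log c2), abs_nonneg K,
      abs_nonneg (Real.log c2), mul_le_mul_of_nonneg_right (le_abs_self K)
        (zero_le_one.trans hA), mul_le_mul_of_nonneg_left hA (abs_nonneg (Real.log c2))]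
  linarith

end Pool.Agent.H4.EQ
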