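import Pool.Agent.H92.EQ.TP
import Pool.Agent.H4.EQ.PRNa

/-!
# Row PRN of the board `eqd_modules`: renewal
-/

set_option autoImplicit false

open scoped BigOperators ComplexConjugate ContDiff ComplexOrder
open MeasureTheory Filter Pool.Agent.H92.EQ

namespace Pool.Agent.H4.EQ

noncomputable section

/-! ## Smooth functions on projective space -/

section hom0

variable {N : ℕ}

theorem hom0_const (c : ℝ) : Hom0 (fun _ : Fin N → ℂ => c) :=
  ⟨contDiffOn_const, fun _ _ _ _ => rfl⟩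

theorem hom0_add {f g : (Fin N → ℂ) → ℝ} (hf : Hom0 f) (hg : Hom0 g) :
    Hom0 (fun z => f z + g z) :=
  ⟨hf.smooth.add hg.smooth, fun l z hl hz => by rw [hf.hom l z hl hz, hg.hom l z hl hz]⟩

theorem hom0_sub {f g : (Fin N → ℂ) → ℝ} (hf : Hom0 f) (hg : Hom0 g) :
    Hom0 (fun z => f z - g z) :=
  ⟨hf.smooth.sub hg.smooth, fun l z hl hz => by rw [hf.hom l z hl hz, hg.hom l z hl hz]⟩

theorem hom0_mul {f g : (Fin N → ℂ) → ℝ} (hf : Hom0 f) (hg : Hom0 g) :
    Hom0 (fun z => f z * g z) :=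
  ⟨hf.smooth.mul hg.smooth, fun l z hl hz => by rw [hf.hom l z hl hz, hg.hom l z hl hz]⟩

theorem hom0_sum (s : Finset ℕ) (f : ℕ → (Fin N → ℂ) → ℝ) (h : ∀ i, Hom0 (f i)) :
    Hom0 (fun z => ∑ i ∈ s, f i z) := by
  classical
  induction s using Finset.induction_on with
  | empty =>
    simp only [Finset.sum_empty]
    exact hom0_const 0
  | insert a s ha ih =>
    simp only [Finset.sum_insert ha]
    exact hom0_add (h a) ih

theorem hom0_prod (s : Finset ℕ) (f : ℕ → (Fin N → ℂ) → ℝ) (h : ∀ i, Hom0 (f i)) :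
    Hom0 (fun z => ∏ i ∈ s, f i z) := by
  classical
  induction s using Finset.induction_on with
  | empty =>
    simp only [Finset.prod_empty]
    exact hom0_const 1
  | insert a s ha ih =>
    simp only [Finset.prod_insert ha]
    exact hom0_mul (h a) ih

theorem hom0_comp (hL1 : T_L1) {D : ℕ} {G : Fin N → MvPolynomial (Fin N) ℂ} (hG : IsH D G)
    {φ : (Fin N → ℂ) → ℝ} (h : Hom0 φ) : Hom0 (fun z => φ (ev G z)) := by
  have h1 := (hL1 N 0 0 0 0 φ φ).2.2.2 D G hG ((hL1 N 0 0 0 0 φ φ).2.1.1 h)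
  rw [mul_zero] at h1
  exact (hL1 N 0 0 0 0 _ (fun z => φ (ev G z))).2.1.2 h1

end hom0

/-! ## The walk -/

section walk

variable {k : ℕ}

theorem ee_add (hP1 : T_P1) {d L : ℕ} {F : Fin (k + 1) → MvPolynomial (Fin (k + 1)) ℂ}
    {σ : Form (Fin (k + 1)) k} (hσ : ProjForm (Sn F d L σ)) {f g : (Fin (k + 1) → ℂ) → ℝ}
    (hf : Hom0 f) (hg : Hom0 g) :
    EE F d L σ (fun x => f x + g x) = EE F d L σ f + EE F d L σ g := by
  have hint := (hP1 (k + 1) k 0 (Sn F d L σ) (fun _ : Fin 0 => ell) (fun _ => 0) rfl hσ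
    (fun j => j.elim0)).2
  have i1 := hint f hf.smooth.continuousOn
  have i2 := hint g hg.smooth.continuousOn
  unfold EE pair Iint
  rw [← integral_add i1 i2]
  congr 1
  funext z
  ring

theorem ee_mul {d L : ℕ} {F : Fin (k + 1) → MvPolynomial (Fin (k + 1)) ℂ}
    {σ : Form (Fin (k + 1)) k} (c : ℝ) (f : (Fin (k + 1) → ℂ) → ℝ) :
    EE F d L σ (fun x => c * f x) = c * EE F d L σ f := by
  unfold EE pair Iint
  rw [← integral_const_mul]
  congr 1
  funext z
  ring

theorem ee_sum (hP1 : T_P1) {d L : ℕ} {F : Fin (k + 1) → MvPolynomial (Fin (k + 1)) ℂ}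
    {σ : Form (Fin (k + 1)) k} (hσ : ProjForm (Sn F d L σ)) (s : Finset ℕ)
    (f : ℕ → (Fin (k + 1) → ℂ) → ℝ) (hf : ∀ i, Hom0 (f i)) :
    EE F d L σ (fun x => ∑ i ∈ s, f i x) = ∑ i ∈ s, EE F d L σ (f i) := by
  classical
  induction s using Finset.induction_on with
  | empty =>
    simp only [Finset.sum_empty]
    have h1 := ee_mul (F := F) (d := d) (L := L) (σ := σ) 0 (fun _ => 0)
    simpa using h1
  | insert a s ha ih =>
    simp only [Finset.sum_insert ha]
    rw [ee_add hP1 hσ (hf a) (hom0_sum s f hf), ih]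

/-- the expectation of `θ ^ (the last visit)` -/
def Rw (F : Fin (k + 1) → MvPolynomial (Fin (k + 1)) ℂ) (v : (Fin (k + 1) → ℂ) → ℝ) (θ : ℝ)
    (L : ℕ) (x : Fin (k + 1) → ℂ) : ℝ :=
  ∑ i ∈ Finset.Ico 0 (L + 1), θ ^ i * (v (ev (iter F (L - i)) x) *
    ∏ m ∈ Finset.Ico (i + 1) (L + 1), (1 - v (ev (iter F (L - m)) x)))

/-- first visit after `t` at time `j` -/
def fv (F : Fin (k + 1) → MvPolynomial (Fin (k + 1)) ℂ) (v : (Fin (k + 1) → ℂ) → ℝ)
    (t j : ℕ) (y : Fin (k + 1) → ℂ) : ℝ := noV F v j t j y * v y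

/-- elementary bound -/
theorem seq_bound (hPSA : T_PSA) (w : ℕ → ℝ) (hw : ∀ i, 0 ≤ w i ∧ w i ≤ 1) (θ : ℝ)
    (hθ : 1 ≤ θ) (t L : ℕ) :
    ∑ i ∈ Finset.Ico 0 (L + 1), θ ^ i * (w i * ∏ m ∈ Finset.Ico (i + 1) (L + 1), (1 - w m)) ≤
      θ ^ t + ∑ j ∈ Finset.Ico t (L + 1), (∏ i ∈ Finset.Ico t j, (1 - w i)) * w j *
        (θ ^ j + ∑ i ∈ Finset.Ico (j + 1) (L + 1), θ ^ i *
          (w i * ∏ m ∈ Finset.Ico (i + 1) (L + 1), (1 - w m))) := by
  have hθ0 : 0 < θ := by linarith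
  have hp0 : ∀ s : Finset ℕ, 0 ≤ ∏ m ∈ s, (1 - w m) := fun s =>
    Finset.prod_nonneg fun m _ => by linarith [(hw m).2]
  have hp1 : ∀ s : Finset ℕ, ∏ m ∈ s, (1 - w m) ≤ 1 := fun s =>
    Finset.prod_le_one (fun m _ => by linarith [(hw m).2]) fun m _ => by linarith [(hw m).1]
  obtain ⟨c, hc⟩ : ∃ c : ℕ → ℝ, c = fun i =>
    w i * ∏ m ∈ Finset.Ico (i + 1) (L + 1), (1 - w m) := ⟨_, rfl⟩
  have hc' : ∀ i, w i * ∏ m ∈ Finset.Ico (i + 1) (L + 1), (1 - w m) = c i := fun i => by rw [hc]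
  have hc0 : ∀ i, 0 ≤ c i := fun i => by
    rw [hc]
    exact mul_nonneg (hw i).1 (hp0 _)
  simp only [hc']
  have h2 := (hPSA w θ 0 (L + 1) (Nat.zero_le _)).2.1
  simp only [hc'] at h2
  have h3 : ∑ i ∈ Finset.Ico 0 (L + 1), c i ≤ 1 := by
    rw [← h2]
    linarith [hp0 (Finset.Ico 0 (L + 1))]
  have h4 : ∑ i ∈ Finset.Ico 0 (L + 1), θ ^ i * c i ≤
      θ ^ t + ∑ i ∈ Finset.Ico t (L + 1), θ ^ i * c i := by
    have h5 : ∀ i ∈ Finset.Ico 0 (L + 1), θ ^ i * c i ≤
        θ ^ t * c i + (if t ≤ i then θ ^ i * c i else 0) := by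
      intro i _
      split_ifs with hti
      · have := mul_nonneg (pow_nonneg hθ0.le t) (hc0 i)
        linarith
      · rw [add_zero]
        exact mul_le_mul_of_nonneg_right (pow_le_pow_right₀ hθ (by omega)) (hc0 i)
    have h6 := Finset.sum_le_sum h5
    rw [Finset.sum_add_distrib, ← Finset.mul_sum, ← Finset.sum_filter] at h6
    have h7 : (Finset.Ico 0 (L + 1)).filter (fun i => t ≤ i) = Finset.Ico t (L + 1) := by
      ext i
      simp only [Finset.mem_filter, Finset.mem_Ico]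
      omega
    rw [h7] at h6
    have h8 := mul_le_mul_of_nonneg_left h3 (pow_nonneg hθ0.le t)
    linarith
  refine h4.trans (add_le_add le_rfl ?_)
  by_cases htL : t ≤ L + 1
  · have h5 := (hPSA w θ t (L + 1) htL).2.2
    simp only [hc'] at h5
    rw [h5]
    apply Finset.sum_le_sum
    intro j _
    apply mul_le_mul_of_nonneg_left _ (mul_nonneg (hp0 _) (hw j).1)
    have h6 := mul_le_mul_of_nonneg_left (hp1 (Finset.Ico (j + 1) (L + 1)))
      (pow_nonneg hθ0.le j)
    linarith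
  · rw [Finset.Ico_eq_empty (by omega)]
    simp

theorem renewal_core (hPSA : T_PSA) (hPMK : T_PMK) (hPDE : T_PDE) (hD12 : T_D12)
    (hKG2 : T_KG2) (hP1 : T_P1) (hL1 : T_L1) {d t s n : ℕ}
    {F : Fin (k + 1) → MvPolynomial (Fin (k + 1)) ℂ}
    {h : Fin s → MvPolynomial (Fin (k + 1)) ℂ} {e : Fin s → ℕ} {C θ δ s0 : ℝ}
    {v : (Fin (k + 1) → ℂ) → ℝ} (hd : 2 ≤ d) (hF : IsH d F) (hv : Hom0 v)
    (hv01 : ∀ z, 0 ≤ v z ∧ v z ≤ 1) (hC : 1 ≤ C)
    (hgrow : ∀ x : Fin (k + 1) → ℂ, x ≠ 0 → phi h e (ev F x) ≤ C * phi h e x) (hθ : 1 < θ)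
    (hδ : 0 < δ)
    (hnum : ∀ L, L ≤ n → ∀ σ : Form (Fin (k + 1)) k, ProjForm σ →
      InK {z | s0 ≤ C ^ (n - L) * phi h e z} σ →
      ∑ j ∈ Finset.Ico t (L + 1), θ ^ (j + 1) * EE F d j σ (fv F v t j) ≤
        (1 - δ / 2) * mass 0 σ) :
    ∀ L, L ≤ n → ∀ σ : Form (Fin (k + 1)) k, ProjForm σ →
      InK {z | s0 ≤ C ^ (n - L) * phi h e z} σ →
      EE F d L σ (Rw F v θ L) ≤ (θ ^ t + 1) * (2 / δ) * mass 0 σ := by
  have hd1 : 1 ≤ d := by omega
  have hθ0 : 0 < θ := by linarith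
  have hM0 : 0 ≤ (θ ^ t + 1) * (2 / δ) := by positivity
  have hIt : ∀ a, IsH (d ^ a) (iter F a) := fun a => (hD12 (k + 1) d F hd1 hF 0 a).1
  have hV : ∀ a, Hom0 (fun x => v (ev (iter F a) x)) := fun a => hom0_comp hL1 (hIt a) hv
  have hadd : ∀ (a b : ℕ) (x : Fin (k + 1) → ℂ),
      ev (iter F (a + b)) x = ev (iter F a) (ev (iter F b) x) := fun a b x =>
    (hD12 (k + 1) d F hd1 hF a b).2.1 x
  have hi0 : ∀ x : Fin (k + 1) → ℂ, ev (iter F 0) x = x := by
    intro x
    funext i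
    exact MvPolynomial.eval_X i
  have hi1 : ∀ x : Fin (k + 1) → ℂ, ev (iter F 1) x = ev F x := by
    intro x
    funext i
    change MvPolynomial.eval x (MvPolynomial.bind₁ (fun i => MvPolynomial.X i) (F i)) =
      MvPolynomial.eval x (F i)
    rw [MvPolynomial.bind₁_X_left]
    rfl
  have hfv : ∀ j, Hom0 (fv F v t j) := by
    intro j
    apply hom0_mul _ hv
    exact hom0_prod (Finset.Ico t j) (fun i x => 1 - v (ev (iter F (j - i)) x)) fun i =>
      hom0_sub (hom0_const 1) (hV _)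
  have hfv0 : ∀ j x, 0 ≤ fv F v t j x := by
    intro j x
    exact mul_nonneg (Finset.prod_nonneg fun i _ => by
      linarith [(hv01 (ev (iter F (j - i)) x)).2]) (hv01 x).1
  have hRw : ∀ L, Hom0 (Rw F v θ L) := by
    intro L
    exact hom0_sum _ (fun i x => θ ^ i * (v (ev (iter F (L - i)) x) *
      ∏ m ∈ Finset.Ico (i + 1) (L + 1), (1 - v (ev (iter F (L - m)) x)))) fun i =>
      hom0_mul (hom0_const _) (hom0_mul (hV _) (hom0_prod _
        (fun m x => 1 - v (ev (iter F (L - m)) x)) fun m => hom0_sub (hom0_const 1) (hV _)))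
  intro L
  induction L using Nat.strong_induction_on with
  | _ L ih =>
  intro hL σ hσ hK
  have hσL : ProjForm (Sn F d L σ) := (hD12 (k + 1) d F hd1 hF 0 L).2.2.2.2 k σ hσ
  have hmass : 0 ≤ mass 0 σ := by
    have h1 := (hPMK k d 0 0 F σ hd hF hσ).2.2.2.2
    have h2 := h1.1 (fun _ => 0) (fun _ => 1) (hom0_const 0) (hom0_const 1)
      fun _ _ => zero_le_one
    rw [h1.2] at h2
    have h3 := ee_mul (F := F) (d := d) (L := 0) (σ := σ) 0 (fun _ => 0)
    simp only [zero_mul] at h3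
    rw [h3] at h2
    exact h2
  -- the expectations of the first visits
  have hfvj : ∀ j, j ≤ L → EE F d L σ (fun x => fv F v t j (ev (iter F (L - j)) x)) =
      EE F d j σ (fv F v t j) := by
    intro j hj
    have h1 := (hPMK k d j (L - j) F σ hd hF hσ).2.1 (fv F v t j) (hfv j)
    rw [show j + (L - j) = L by omega] at h1
    exact h1
  have hpj0 : ∀ j, 0 ≤ EE F d j σ (fv F v t j) := by
    intro j
    have h1 := (hPMK k d j 0 F σ hd hF hσ).2.2.2.2
    have h2 := h1.1 (fun _ => 0) (fv F v t j) (hom0_const 0) (hfv j) fun z _ => hfv0 j z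
    have h3 := ee_mul (F := F) (d := d) (L := j) (σ := σ) 0 (fun _ => 0)
    simp only [zero_mul] at h3
    rw [h3] at h2
    exact h2
  -- the remaining sums
  obtain ⟨Rx, hRx⟩ : ∃ Rx : ℕ → (Fin (k + 1) → ℂ) → ℝ, Rx = fun j x =>
    if j < L then Rw F v θ (L - (j + 1)) x else 0 := ⟨_, rfl⟩
  have hRx1 : ∀ j, j < L → Rx j = Rw F v θ (L - (j + 1)) := by
    intro j hj
    rw [hRx]
    funext x
    simp only [if_pos hj]
  have hRx2 : ∀ j, ¬ j < L → Rx j = fun _ => 0 := by
    intro j hj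
    rw [hRx]
    funext x
    simp only [if_neg hj]
  have hRxH : ∀ j, Hom0 (Rx j) := by
    intro j
    by_cases hj : j < L
    · rw [hRx1 j hj]
      exact hRw _
    · rw [hRx2 j hj]
      exact hom0_const 0
  have hsum : ∀ j, j ∈ Finset.Ico t (L + 1) → ∀ x, ∑ i ∈ Finset.Ico (j + 1) (L + 1), θ ^ i *
      (v (ev (iter F (L - i)) x) *
        ∏ m ∈ Finset.Ico (i + 1) (L + 1), (1 - v (ev (iter F (L - m)) x))) =
      θ ^ (j + 1) * Rx j x := by
    intro j hj x
    have hjL : j ≤ L := by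
      have := (Finset.mem_Ico.1 hj).2
      omega
    by_cases hj : j < L
    · rw [hRx1 j hj]
      obtain ⟨L', hL'⟩ : ∃ L', L = L' + (j + 1) := ⟨L - (j + 1), by omega⟩
      have e1 : L - (j + 1) = L' := by omega
      rw [e1]
      unfold Rw
      rw [Finset.mul_sum]
      have h1 : Finset.Ico (j + 1) (L + 1) = Finset.Ico (0 + (j + 1)) (L' + 1 + (j + 1)) := by
        rw [hL', zero_add]
        congr 1
        omega
      rw [h1, ← Finset.sum_Ico_add']
      apply Finset.sum_congr rfl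
      intro i _
      have h2 : L - (i + (j + 1)) = L' - i := by omega
      have h3 : Finset.Ico (i + (j + 1) + 1) (L + 1) =
          Finset.Ico (i + 1 + (j + 1)) (L' + 1 + (j + 1)) := by
        rw [hL']
        congr 1
        · omega
        · omega
      rw [h2, h3, ← Finset.prod_Ico_add']
      have h4 : ∀ m, L - (m + (j + 1)) = L' - m := by
        intro m
        omega
      simp only [h4]
      rw [pow_add]
      ring
    · rw [hRx2 j hj, mul_zero, Finset.Ico_eq_empty (by omega), Finset.sum_empty]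
  -- pointwise bound
  have hnoV : ∀ j, j ≤ L → ∀ x, (∏ i ∈ Finset.Ico t j, (1 - v (ev (iter F (L - i)) x))) *
      v (ev (iter F (L - j)) x) = fv F v t j (ev (iter F (L - j)) x) := by
    intro j hj x
    unfold fv noV
    congr 1
    apply Finset.prod_congr rfl
    intro i hi
    have hij := (Finset.mem_Ico.1 hi).2
    rw [← hadd, show j - i + (L - j) = L - i by omega]
  have hpt : ∀ x, Rw F v θ L x ≤ θ ^ t * 1 + ∑ j ∈ Finset.Ico t (L + 1),
      (θ ^ j * fv F v t j (ev (iter F (L - j)) x) +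
        θ ^ (j + 1) * (fv F v t j (ev (iter F (L - j)) x) * Rx j x)) := by
    intro x
    refine (seq_bound hPSA (fun i => v (ev (iter F (L - i)) x)) (fun i => hv01 _) θ hθ.le t
      L).trans (le_of_eq ?_)
    rw [mul_one]
    congr 1
    apply Finset.sum_congr rfl
    intro j hj
    have hjL : j ≤ L := by
      have := (Finset.mem_Ico.1 hj).2
      omega
    rw [hnoV j hjL x, hsum j hj x]
    ring
  -- the renewal terms
  have hren : ∀ j ∈ Finset.Ico t (L + 1),
      EE F d L σ (fun x => fv F v t j (ev (iter F (L - j)) x) * Rx j x) ≤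
        (θ ^ t + 1) * (2 / δ) * EE F d j σ (fv F v t j) := by
    intro j hj
    have hjL : j ≤ L := by
      have := (Finset.mem_Ico.1 hj).2
      omega
    by_cases hj : j < L
    · rw [hRx1 j hj]
      obtain ⟨L', hL'⟩ : ∃ L', L' = L - (j + 1) := ⟨_, rfl⟩
      rw [← hL']
      obtain ⟨g, hg⟩ : ∃ g : (Fin (k + 1) → ℂ) → ℝ, g = fun x => fv F v t j (ev (iter F 1) x) :=
        ⟨_, rfl⟩
      have hgH : Hom0 g := by
        rw [hg]
        exact hom0_comp hL1 (hIt 1) (hfv j)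
      have hg0 : ∀ z, z ≠ 0 → 0 ≤ g z := by
        intro z _
        rw [hg]
        exact hfv0 j _
      have h1 := (hPMK k d L' (j + 1) F σ hd hF hσ).2.2.1 g (Rw F v θ L')
      rw [show j + 1 + L' = L by omega] at h1
      have h2 : (fun x => g (ev (iter F L') x) * Rw F v θ L' x) =
          fun x => fv F v t j (ev (iter F (L - j)) x) * Rw F v θ L' x := by
        funext x
        rw [hg]
        simp only
        rw [← hadd, show 1 + L' = L - j by omega]
      rw [h2] at h1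
      rw [h1]
      have hσ1 : ProjForm (Sn F d (j + 1) σ) := (hD12 (k + 1) d F hd1 hF 0 (j + 1)).2.2.2.2 k σ hσ
      have hσ2 : ProjForm (dens g (Sn F d (j + 1) σ)) := hPDE k g _ hσ1 hgH hg0
      have hK1 := (hKG2 (k + 1) d k (j + 1) F _ σ (fun _ => 0) hd1 hF hK).2.1
      have hK2 : InK {z | s0 ≤ C ^ (n - L') * phi h e z} (dens g (Sn F d (j + 1) σ)) := by
        intro z hz hzK I J
        have h3 : Sn F d (j + 1) σ z I J = 0 := by
          apply hK1 z hz
          intro hmem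
          apply hzK
          have h4 : ∀ a, phi h e (ev (iter F a) z) ≤ C ^ a * phi h e z := by
            intro a
            induction a with
            | zero => rw [hi0, pow_zero, one_mul]
            | succ a iha =>
              have hne : ev (iter F a) z ≠ 0 := fun h0 => hz ((hIt a).nd z h0)
              rw [add_comm a 1, hadd 1 a, hi1, pow_add, pow_one]
              calc phi h e (ev F (ev (iter F a) z)) ≤ C * phi h e (ev (iter F a) z) :=
                    hgrow _ hne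
                _ ≤ C * (C ^ a * phi h e z) := mul_le_mul_of_nonneg_left iha (by linarith)
                _ = _ := by ring
          change s0 ≤ C ^ (n - L) * phi h e (ev (iter F (j + 1)) z) at hmem
          change s0 ≤ C ^ (n - L') * phi h e z
          refine hmem.trans ?_
          rw [show n - L' = (n - L) + (j + 1) by omega, pow_add]
          calc _ ≤ C ^ (n - L) * (C ^ (j + 1) * phi h e z) :=
                mul_le_mul_of_nonneg_left (h4 (j + 1)) (by positivity)
            _ = _ := by ring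
        change (g z : ℂ) * Sn F d (j + 1) σ z I J = 0
        rw [h3, mul_zero]
      have h5 := ih L' (by omega) (by omega) _ hσ2 hK2
      have h6 := (hPMK k d 0 (j + 1) F σ hd hF hσ).2.2.2.1 g
      rw [h6] at h5
      have h7 := (hPMK k d j 1 F σ hd hF hσ).2.1 (fv F v t j) (hfv j)
      rw [← hg] at h7
      rw [h7] at h5
      exact h5
    · rw [hRx2 j hj]
      simp only [mul_zero]
      have h3 := ee_mul (F := F) (d := d) (L := L) (σ := σ) 0 (fun _ => 0)
      simp only [zero_mul] at h3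
      rw [h3]
      exact mul_nonneg hM0 (hpj0 j)
  -- sum up
  have hF1 : ∀ j, Hom0 (fun x => fv F v t j (ev (iter F (L - j)) x)) := fun j =>
    hom0_comp hL1 (hIt _) (hfv j)
  have hF2 : ∀ j, Hom0 (fun x => fv F v t j (ev (iter F (L - j)) x) * Rx j x) := fun j =>
    hom0_mul (hF1 j) (hRxH j)
  have hF3 : ∀ j, Hom0 (fun x => θ ^ j * fv F v t j (ev (iter F (L - j)) x) +
      θ ^ (j + 1) * (fv F v t j (ev (iter F (L - j)) x) * Rx j x)) := fun j =>
    hom0_add (hom0_mul (hom0_const _) (hF1 j)) (hom0_mul (hom0_const _) (hF2 j))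
  have hmono := (hPMK k d L 0 F σ hd hF hσ).2.2.2.2.1 (Rw F v θ L) _ (hRw L)
    (hom0_add (hom0_mul (hom0_const (θ ^ t)) (hom0_const 1))
      (hom0_sum (Finset.Ico t (L + 1)) _ hF3)) fun z _ => hpt z
  rw [ee_add hP1 hσL (hom0_mul (hom0_const (θ ^ t)) (hom0_const 1))
    (hom0_sum (Finset.Ico t (L + 1)) _ hF3), ee_mul, ee_sum hP1 hσL _ _ hF3,
    (hPMK k d L 0 F σ hd hF hσ).2.2.2.2.2] at hmono
  refine hmono.trans ?_
  have hterm : ∀ j ∈ Finset.Ico t (L + 1),
      EE F d L σ (fun x => θ ^ j * fv F v t j (ev (iter F (L - j)) x) +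
        θ ^ (j + 1) * (fv F v t j (ev (iter F (L - j)) x) * Rx j x)) ≤
      (1 + (θ ^ t + 1) * (2 / δ)) * (θ ^ (j + 1) * EE F d j σ (fv F v t j)) := by
    intro j hj
    have hjL : j ≤ L := by
      have := (Finset.mem_Ico.1 hj).2
      omega
    rw [ee_add hP1 hσL (hom0_mul (hom0_const _) (hF1 j)) (hom0_mul (hom0_const _) (hF2 j)),
      ee_mul, ee_mul, hfvj j hjL]
    have h1 := mul_le_mul_of_nonneg_left (hren j hj) (pow_nonneg hθ0.le (j + 1))
    have h2 : θ ^ j ≤ θ ^ (j + 1) := pow_le_pow_right₀ hθ.le (by omega)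
    have h3 := mul_le_mul_of_nonneg_right h2 (hpj0 j)
    linarith
  have h1 := Finset.sum_le_sum hterm
  rw [← Finset.mul_sum] at h1
  have h2 := mul_le_mul_of_nonneg_left (hnum L hL σ hσ hK)
    (show 0 ≤ 1 + (θ ^ t + 1) * (2 / δ) by positivity)
  have h3 : θ ^ t * mass 0 σ + (1 + (θ ^ t + 1) * (2 / δ)) * ((1 - δ / 2) * mass 0 σ) ≤
      (θ ^ t + 1) * (2 / δ) * mass 0 σ := by
    have h4 : θ ^ t * mass 0 σ + (1 + (θ ^ t + 1) * (2 / δ)) * ((1 - δ / 2) * mass 0 σ) =
        (θ ^ t + 1) * (2 / δ) * mass 0 σ - δ / 2 * mass 0 σ := by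
      field_simp
      ring
    rw [h4]
    have := mul_nonneg hδ.le hmass
    linarith
  linarith

end walk

end

end Pool.Agent.H4.EQ
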