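import Pool.Agent.H92.EQ.TF1

/-!
# MP_75a732_an: row W3 (the chain rule for a polynomial map inside)
-/

set_option autoImplicit false

namespace Pool.Agent.H4.EQ

open scoped BigOperators ComplexConjugate ContDiff ComplexOrder
open Pool.Agent.H92.EQ

theorem w3 (h0 : T_W0) (h2 : T_W2) : T_W3 := by
  intro ι κ _ _ _ _ G f z a hf
  have hdi : ∀ i, DifferentiableAt ℝ (fun w : κ → ℂ => MvPolynomial.eval w (G i)) z := fun i =>
    ((h2 κ a (G i) z).2.2.differentiable (by simp)).differentiableAt
  have hd : DifferentiableAt ℝ (ev G) z := differentiableAt_pi.2 hdi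
  have hj : ∀ (v : κ → ℂ) (i : ι), fderiv ℝ (ev G) z v i = ∑ b, jac G z i b * v b := by
    intro v i
    have e : fderiv ℝ (ev G) z v i =
        fderiv ℝ (fun w : κ → ℂ => MvPolynomial.eval w (G i)) z v := by
      have := (hasFDerivAt_pi'.1 hd.hasFDerivAt i).fderiv
      have h3 : (fun w => ev G w i) = fun w : κ → ℂ => MvPolynomial.eval w (G i) := rfl
      rw [h3] at this
      rw [this]
      rfl
    rw [e, h0 κ _ z v]
    refine Finset.sum_congr rfl fun b _ => ?_
    obtain ⟨e1, e2, -⟩ := h2 κ b (G i) z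
    rw [e1, e2, zero_mul, add_zero]
    rfl
  have hs : ∀ (c : ℂ), fderiv ℝ (fun w => f (ev G w)) z (Pi.single a c) =
      ∑ i, (wd i f (ev G z) * (jac G z i a * c) +
        wdb i f (ev G z) * (conj (jac G z i a) * conj c)) := by
    intro c
    have e : fderiv ℝ (fun w => f (ev G w)) z =
        (fderiv ℝ f (ev G z)).comp (fderiv ℝ (ev G) z) := fderiv_comp z hf hd
    rw [e, ContinuousLinearMap.comp_apply, h0 ι f (ev G z)]
    refine Finset.sum_congr rfl fun i _ => ?_
    have e1 : fderiv ℝ (ev G) z (Pi.single a c) i = jac G z i a * c := by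
      rw [hj, Finset.sum_eq_single a]
      · rw [Pi.single_eq_same]
      · intro b _ hb
        rw [Pi.single_eq_of_ne hb, mul_zero]
      · intro hn
        exact absurd (Finset.mem_univ _) hn
    rw [e1, map_mul]
  have hI : Complex.I * Complex.I = -1 := Complex.I_mul_I
  constructor
  · have e1 : wd a (fun w => f (ev G w)) z = (fderiv ℝ (fun w => f (ev G w)) z (Pi.single a 1) -
      Complex.I * fderiv ℝ (fun w => f (ev G w)) z (Pi.single a Complex.I)) / 2 := rfl
    rw [e1, hs 1, hs Complex.I, Finset.mul_sum, ← Finset.sum_sub_distrib, Finset.sum_div]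
    refine Finset.sum_congr rfl fun i _ => ?_
    rw [map_one, Complex.conj_I]
    linear_combination (-(wd i f (ev G z) * jac G z i a) / 2 +
      wdb i f (ev G z) * conj (jac G z i a) / 2) * hI
  · have e1 : wdb a (fun w => f (ev G w)) z = (fderiv ℝ (fun w => f (ev G w)) z (Pi.single a 1) +
      Complex.I * fderiv ℝ (fun w => f (ev G w)) z (Pi.single a Complex.I)) / 2 := rfl
    rw [e1, hs 1, hs Complex.I, Finset.mul_sum, ← Finset.sum_add_distrib, Finset.sum_div]
    refine Finset.sum_congr rfl fun i _ => ?_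
    rw [map_one, Complex.conj_I]
    linear_combination ((wd i f (ev G z) * jac G z i a) / 2 -
      wdb i f (ev G z) * conj (jac G z i a) / 2) * hI

end Pool.Agent.H4.EQ
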